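import Pool.Agent.Helper34.FF.Goals1

/-!
MP_7cb822_co, packet A1: algebra of boundaries of face sets.
-/

namespace Pool.Agent.Helper22.FF

open Finset
open scoped symmDiff Classical
open Pool.Agent.Helper34.FF

section
variable {V F : Type} [Fintype V] [Fintype F] (T : Tri V F)

theorem on_mk (a b : V) (f : F) : T.on s(a, b) f ↔ a ∈ T.tri f ∧ b ∈ T.tri f := by
  simp [Tri.on, Sym2.mem_iff]

theorem card_on (e : Sym2 V) (he : e ∈ T.G.edgeSet) :
    (univ.filter fun f => T.on e f).card = 2 := by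
  induction e using Sym2.ind with
  | _ a b =>
    rw [← T.two a b (by simpa using he)]
    congr 1
    ext f
    simp [on_mk]

theorem two_faces (e : Sym2 V) (he : e ∈ T.G.edgeSet) :
    ∃ f₁ f₂, f₁ ≠ f₂ ∧ ∀ f, T.on e f ↔ f = f₁ ∨ f = f₂ := by
  obtain ⟨f₁, f₂, hne, h⟩ := Finset.card_eq_two.1 (card_on T e he)
  refine ⟨f₁, f₂, hne, fun f => ?_⟩
  have : f ∈ (univ.filter fun f => T.on e f) ↔ f ∈ ({f₁, f₂} : Finset F) := by rw [h]
  simpa using this

theorem card_filter_on (e : Sym2 V) (f₁ f₂ : F) (hne : f₁ ≠ f₂)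
    (h : ∀ f, T.on e f ↔ f = f₁ ∨ f = f₂) (S : Finset F) :
    (S.filter fun f => T.on e f).card =
      (if f₁ ∈ S then 1 else 0) + (if f₂ ∈ S then 1 else 0) := by
  by_cases h1 : f₁ ∈ S
  · by_cases h2 : f₂ ∈ S
    · have : (S.filter fun f => T.on e f) = {f₁, f₂} := by
        ext f
        simp only [mem_filter, h, mem_insert, mem_singleton]
        constructor
        · exact fun h => h.2
        · rintro (rfl | rfl)
          · exact ⟨h1, Or.inl rfl⟩
          · exact ⟨h2, Or.inr rfl⟩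
      rw [this, card_pair hne]
      simp [h1, h2]
    · have : (S.filter fun f => T.on e f) = {f₁} := by
        ext f
        simp only [mem_filter, h, mem_singleton]
        constructor
        · rintro ⟨hf, (rfl | rfl)⟩
          · rfl
          · exact absurd hf h2
        · rintro rfl
          exact ⟨h1, Or.inl rfl⟩
      rw [this]
      simp [h1, h2]
  · by_cases h2 : f₂ ∈ S
    · have : (S.filter fun f => T.on e f) = {f₂} := by
        ext f
        simp only [mem_filter, h, mem_singleton]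
        constructor
        · rintro ⟨hf, (rfl | rfl)⟩
          · exact absurd hf h1
          · rfl
        · rintro rfl
          exact ⟨h2, Or.inr rfl⟩
      rw [this]
      simp [h1, h2]
    · have : (S.filter fun f => T.on e f) = ∅ := by
        ext f
        simp only [mem_filter, h, notMem_empty, iff_false]
        rintro ⟨hf, (rfl | rfl)⟩
        · exact h1 hf
        · exact h2 hf
      rw [this]
      simp [h1, h2]

theorem mem_bdry (e : Sym2 V) (S : Finset F) :
    e ∈ T.bdry S ↔ e ∈ T.G.edgeSet ∧ (S.filter fun f => T.on e f).card = 1 := by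
  simp [Tri.bdry]

theorem mem_inn (e : Sym2 V) (S : Finset F) :
    e ∈ T.inn S ↔ e ∈ T.G.edgeSet ∧ (S.filter fun f => T.on e f).card = 2 := by
  simp [Tri.inn]

theorem bdry_symmDiff (S S' : Finset F) : T.bdry (S ∆ S') = T.bdry S ∆ T.bdry S' := by
  ext e
  rw [mem_symmDiff]
  simp only [mem_bdry]
  by_cases he : e ∈ T.G.edgeSet
  · obtain ⟨f₁, f₂, hne, h⟩ := two_faces T e he
    simp only [he, true_and, card_filter_on T e f₁ f₂ hne h, mem_symmDiff]
    by_cases h1 : f₁ ∈ S <;> by_cases h2 : f₂ ∈ S <;> by_cases h3 : f₁ ∈ S' <;>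
      by_cases h4 : f₂ ∈ S' <;> simp [h1, h2, h3, h4]
  · simp [he]

theorem bdry_compl (S : Finset F) : T.bdry Sᶜ = T.bdry S := by
  ext e
  simp only [mem_bdry]
  by_cases he : e ∈ T.G.edgeSet
  · obtain ⟨f₁, f₂, hne, h⟩ := two_faces T e he
    simp only [he, true_and, card_filter_on T e f₁ f₂ hne h, mem_compl]
    by_cases h1 : f₁ ∈ S <;> by_cases h2 : f₂ ∈ S <;> simp [h1, h2]
  · simp [he]

theorem card_edges_at (v : V) (f : F) :
    Even ((univ.filter fun e : Sym2 V => e ∈ T.G.edgeSet ∧ v ∈ e).filter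
      fun e => T.on e f).card := by
  by_cases hv : v ∈ T.tri f
  · have hc : ((T.tri f).erase v).card = 2 := by
      rw [card_erase_of_mem hv, T.tri_card]
    obtain ⟨x, y, hxy, hs⟩ := Finset.card_eq_two.1 hc
    have hx : x ∈ (T.tri f).erase v := by rw [hs]; simp
    have hy : y ∈ (T.tri f).erase v := by rw [hs]; simp
    rw [mem_erase] at hx hy
    have heq : ((univ.filter fun e : Sym2 V => e ∈ T.G.edgeSet ∧ v ∈ e).filter
        fun e => T.on e f) = {s(v, x), s(v, y)} := by
      ext e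
      simp only [mem_filter, mem_univ, true_and, mem_insert, mem_singleton]
      constructor
      · rintro ⟨⟨he, hve⟩, hon⟩
        obtain ⟨w, rfl⟩ := Sym2.mem_iff_exists.1 hve
        have hw := ((on_mk T v w f).1 hon).2
        have hvw : w ≠ v := by
          rintro rfl
          exact T.G.loopless.irrefl w (by simpa using he)
        have : w ∈ (T.tri f).erase v := mem_erase.2 ⟨hvw, hw⟩
        rw [hs, mem_insert, mem_singleton] at this
        rcases this with rfl | rfl
        · exact Or.inl rfl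
        · exact Or.inr rfl
      · rintro (rfl | rfl)
        · refine ⟨⟨?_, Sym2.mem_mk_left _ _⟩, (on_mk T v x f).2 ⟨hv, hx.2⟩⟩
          exact T.tri_adj f v hv x hx.2 (fun h => hx.1 h.symm)
        · refine ⟨⟨?_, Sym2.mem_mk_left _ _⟩, (on_mk T v y f).2 ⟨hv, hy.2⟩⟩
          exact T.tri_adj f v hv y hy.2 (fun h => hy.1 h.symm)
    rw [heq, card_pair]
    · exact even_two
    · intro h
      apply hxy
      exact Sym2.congr_right.1 h
  · have heq : ((univ.filter fun e : Sym2 V => e ∈ T.G.edgeSet ∧ v ∈ e).filter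
        fun e => T.on e f) = ∅ := by
      ext e
      simp only [mem_filter, mem_univ, true_and, notMem_empty, iff_false]
      rintro ⟨⟨_, hve⟩, hon⟩
      exact hv (hon v hve)
    rw [heq]
    simp

theorem even_bdry (S : Finset F) : EvenSet (T.bdry S) := by
  intro v
  have h1 := Finset.sum_card_bipartiteAbove_eq_sum_card_bipartiteBelow
    (s := S) (t := univ.filter fun e : Sym2 V => e ∈ T.G.edgeSet ∧ v ∈ e)
    (fun f e => T.on e f)
  unfold Finset.bipartiteAbove Finset.bipartiteBelow at h1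
  have h2 : Even (∑ f ∈ S, ((univ.filter fun e : Sym2 V => e ∈ T.G.edgeSet ∧ v ∈ e).filter
      fun e => T.on e f).card) :=
    Finset.even_sum _ fun f _ => card_edges_at T v f
  rw [h1] at h2
  have h3 : ∀ e ∈ univ.filter fun e : Sym2 V => e ∈ T.G.edgeSet ∧ v ∈ e,
      ((S.filter fun f => T.on e f).card : ZMod 2) = if e ∈ T.bdry S then 1 else 0 := by
    intro e he
    rw [mem_filter] at he
    obtain ⟨f₁, f₂, hne, h⟩ := two_faces T e he.2.1
    have hb : e ∈ T.bdry S ↔ ((if f₁ ∈ S then 1 else 0) + (if f₂ ∈ S then 1 else 0)) = 1 := by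
      rw [mem_bdry, card_filter_on T e f₁ f₂ hne h]
      simp [he.2.1]
    rw [card_filter_on T e f₁ f₂ hne h]
    by_cases hB : e ∈ T.bdry S
    · rw [if_pos hB, hb.1 hB]
      simp
    · rw [if_neg hB]
      by_cases h1 : f₁ ∈ S <;> by_cases h2 : f₂ ∈ S <;> simp [h1, h2] at hb ⊢
      · decide
      · exact absurd hb hB
      · exact absurd hb hB
  have h4 : ((∑ e ∈ univ.filter fun e : Sym2 V => e ∈ T.G.edgeSet ∧ v ∈ e,
      (S.filter fun f => T.on e f).card : ℕ) : ZMod 2) = 0 :=
    (ZMod.natCast_eq_zero_iff_even).2 h2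
  rw [Nat.cast_sum, Finset.sum_congr rfl h3, ← Finset.sum_filter, Finset.sum_const,
    nsmul_eq_mul, mul_one] at h4
  have h5 : ((univ.filter fun e : Sym2 V => e ∈ T.G.edgeSet ∧ v ∈ e).filter
      fun e => e ∈ T.bdry S) = (T.bdry S).filter fun e => v ∈ e := by
    ext e
    simp only [mem_filter, mem_univ, true_and]
    constructor
    · rintro ⟨⟨_, h⟩, h'⟩
      exact ⟨h', h⟩
    · rintro ⟨h', h⟩
      exact ⟨⟨((mem_bdry T e S).1 h').1, h⟩, h'⟩
  rw [h5] at h4
  exact (ZMod.natCast_eq_zero_iff_even).1 h4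

theorem edge_cases (S : Finset F) (e : Sym2 V) (he : e ∈ T.G.edgeSet) :
    e ∈ T.bdry S ∨ e ∈ T.inn S ∨ e ∈ T.inn Sᶜ := by
  obtain ⟨f₁, f₂, hne, h⟩ := two_faces T e he
  simp only [mem_bdry, mem_inn, he, true_and, card_filter_on T e f₁ f₂ hne h, mem_compl]
  by_cases h1 : f₁ ∈ S <;> by_cases h2 : f₂ ∈ S <;> simp [h1, h2]

theorem disjoint_bdry_inn (S : Finset F) : Disjoint (T.bdry S) (T.inn S) := by
  rw [Finset.disjoint_left]
  intro e h1 h2
  rw [mem_bdry] at h1
  rw [mem_inn] at h2
  omega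

theorem inn_of_Vin (S : Finset F) (v : V) (hv : v ∈ T.Vin S) (e : Sym2 V)
    (he : e ∈ T.G.edgeSet) (hve : v ∈ e) : e ∈ T.inn S := by
  rw [mem_inn]
  refine ⟨he, ?_⟩
  rw [← card_on T e he]
  congr 1
  ext f
  simp only [mem_filter, mem_univ, true_and, and_iff_right_iff_imp]
  intro hon
  have hv' : ∀ f, v ∈ T.tri f → f ∈ S := by simpa [Tri.Vin] using hv
  exact hv' f (hon v hve)

end

theorem pf_StmtAlg : StmtAlg := by
  intro V F _ _ T
  exact ⟨bdry_symmDiff T, bdry_compl T, even_bdry T, card_on T, edge_cases T,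
    disjoint_bdry_inn T, inn_of_Vin T⟩

end Pool.Agent.Helper22.FF
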