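import Pool.Agent.Helper34.FF.G1
import Pool.Agent.Helper34.FF.Goals2

/-!
MP_7cb822_co, packet B13: a balanced bond of minimal length has a side without shortcuts.
-/

namespace Pool.Agent.Helper22.FF

open Finset
open scoped symmDiff Classical
open Pool.Agent.Helper34.FF

theorem in_of_bound {V F : Type} [Fintype V] [Fintype F] (T : Tri V F) (hS : T.Sphere)
    (X : Finset F) (l : ℕ) (c : ℤ → V) (hE : T.Enum X l c)
    (hb : ∀ (i j : ℤ) (k : ℕ) (a : ℕ → V), i ≤ j → j ≤ i + l → IsW T.G k a (c i) (c j) →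
      (∀ t < k, s(a t, a (t + 1)) ∈ T.inn X ∪ T.bdry X) → min (j - i) (l - (j - i)) ≤ (k : ℤ)) :
    T.IN X := by
  intro k a x y hx hy hw hedge
  obtain ⟨_, _, _, hV, _⟩ := pEnumFacts V F T hS X l c hE
  obtain ⟨i, rfl⟩ := (hV x).1 hx
  obtain ⟨j, rfl⟩ := (hV y).1 hy
  have hl : (0 : ℤ) < l := by
    have := hE.three
    omega
  set j' : ℤ := i + (j - i) % l with hj'
  have hmod0 : 0 ≤ (j - i) % (l : ℤ) := Int.emod_nonneg _ (by omega)
  have hmod1 : (j - i) % (l : ℤ) < l := Int.emod_lt_of_pos _ hl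
  have hcj : c j = c j' := by
    have h := Pool.Agent.Helper7.FF.per_mul c l hE.per j' ((j - i) / l)
    have h3 : j' + (j - i) / l * l = j := by
      have := Int.emod_add_mul_ediv (j - i) l
      rw [hj']
      have h4 : (j - i) / l * l = (l : ℤ) * ((j - i) / l) := by ring
      rw [h4]
      omega
    rw [h3] at h
    exact h
  rw [hcj] at hw ⊢
  have h7 : min (j' - i) (l - (j' - i)) ≤ (k : ℤ) :=
    hb i j' k a (by omega) (by omega) hw hedge
  rcases min_le_iff.mp h7 with h8 | h8
  · refine ⟨(j' - i).toNat, by omega, fun t : ℕ => c (i + t), ?_⟩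
    have h9 := Pool.Agent.Helper7.FF.fwd T X l c hE i (j' - i).toNat
    have h10 : i + ((j' - i).toNat : ℤ) = j' := by
      rw [Int.toNat_of_nonneg (by omega)]
      ring
    rw [h10] at h9
    exact h9
  · refine ⟨(l - (j' - i)).toNat, by omega, fun t : ℕ => c (i - t), ?_⟩
    have h9 := Pool.Agent.Helper7.FF.bwd T X l c hE i (l - (j' - i)).toNat
    have h10 : c (i - ((l - (j' - i)).toNat : ℤ)) = c j' := by
      rw [Int.toNat_of_nonneg (by omega)]
      have h11 := hE.per (i - (l - (j' - i)))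
      have h12 : i - ((l : ℤ) - (j' - i)) + l = j' := by ring
      rw [h12] at h11
      exact h11.symm
    rw [h10] at h9
    exact h9

/-- The graph of the edges in the closure of `X`. -/
def clGraph {V F : Type} [Fintype V] [Fintype F] (T : Tri V F) (X : Finset F) :
    SimpleGraph V where
  Adj v w := T.G.Adj v w ∧ s(v, w) ∈ T.inn X ∪ T.bdry X
  symm := ⟨fun v w h => ⟨h.1.symm, by
    rw [Sym2.eq_swap]
    exact h.2⟩⟩
  loopless := ⟨fun v h => T.G.loopless.irrefl v h.1⟩

/-- The properties of the bond. -/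
def PP {V F : Type} [Fintype V] [Fintype F] (T : Tri V F) (L : Finset V) (b : ℕ)
    (S : Finset F) : Prop :=
  T.Bond S ∧ T.len S ≤ b ∧ L.card ≤ 5 * T.m L S ∧ L.card ≤ 5 * T.m L Sᶜ

theorem in_of_min (hMass : StmtMass) {V F : Type} [Fintype V] [Fintype F] (T : Tri V F)
    (hT : T.Sphere) (L : Finset V) (b : ℕ) (hL : 100 * b ≤ L.card) (S : Finset F)
    (hP : PP T L b S) (hmin : ∀ Y, PP T L b Y → T.len S ≤ T.len Y)
    (hm : T.m L S ≤ T.m L Sᶜ) : T.IN Sᶜ := by
  obtain ⟨hB, hlen, h5, h5'⟩ := hP
  obtain ⟨_, hmass⟩ := hMass V F T hT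
  obtain ⟨m1, m2, m3, m4, m5, m6⟩ := hmass L
  have hBc : T.Bond Sᶜ := ⟨hB.2, by rw [compl_compl]; exact hB.1⟩
  obtain ⟨c, hE⟩ := pEnum V F T hT Sᶜ hBc
  have hlc : T.len Sᶜ = T.len S := (m6 S S).2.2.2
  rw [hlc] at hE
  set l := T.len S with hl
  have hl3 : 3 ≤ l := hE.three
  have key : ∀ (i j : ℤ) (k : ℕ) (a : ℕ → V), i < j → j < i + l →
      IsW (clGraph T Sᶜ) k a (c i) (c j) → Inj k a →
      (∀ t, 0 < t → t < k → ∀ q, a t ≠ c q) → min (j - i) (l - (j - i)) ≤ (k : ℤ) := by
    intro i j k a hij hjl hw hinj hint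
    by_contra hk
    push Not at hk
    have hk1 : (k : ℤ) < j - i := lt_of_lt_of_le hk (min_le_left _ _)
    have hk2 : (k : ℤ) < l - (j - i) := lt_of_lt_of_le hk (min_le_right _ _)
    have hw' : IsW T.G k a (c i) (c j) := ⟨hw.1, hw.2.1, fun t ht => (hw.2.2 t ht).1⟩
    have hinn : ∀ t < k, s(a t, a (t + 1)) ∈ T.inn Sᶜ := by
      intro t ht
      rcases Finset.mem_union.1 (hw.2.2 t ht).2 with h | h
      · exact h
      · exfalso
        obtain ⟨q, hq⟩ := (hE.bd _).1 h
        have ht0 : t = 0 := by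
          by_contra h0
          rcases Sym2.eq_iff.1 hq with ⟨h1, _⟩ | ⟨h1, _⟩
          · exact hint t (by omega) ht _ h1
          · exact hint t (by omega) ht _ h1
        have htk : t + 1 = k := by
          by_contra h0
          rcases Sym2.eq_iff.1 hq with ⟨_, h1⟩ | ⟨_, h1⟩
          · exact hint (t + 1) (by omega) (by omega) _ h1
          · exact hint (t + 1) (by omega) (by omega) _ h1
        subst ht0
        have hk1' : k = 1 := by omega
        subst hk1'
        have ha0 : a 0 = c i := hw.1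
        have ha1 : a (0 + 1) = c j := hw.2.1
        rw [ha0, ha1] at hq
        rcases Sym2.eq_iff.1 hq with ⟨h1, h2⟩ | ⟨h1, h2⟩
        · obtain ⟨u, hu⟩ := hE.inj _ _ h1
          obtain ⟨v, hv⟩ := hE.inj _ _ h2
          -- j - i - 1 = l * (v - u)
          have h3 : j - i - 1 = l * (v - u) := by
            have : (l : ℤ) * (v - u) = l * v - l * u := by ring
            rw [this]
            omega
          have h4 : v - u = 0 := by
            by_contra hne
            rcases lt_or_gt_of_ne hne with h | h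
            · have : (l : ℤ) * (v - u) ≤ l * (-1) := by
                apply mul_le_mul_of_nonneg_left _ (by omega)
                omega
              omega
            · have : (l : ℤ) * 1 ≤ l * (v - u) := by
                apply mul_le_mul_of_nonneg_left _ (by omega)
                omega
              omega
          rw [h4] at h3
          omega
        · obtain ⟨u, hu⟩ := hE.inj _ _ h1
          obtain ⟨v, hv⟩ := hE.inj _ _ h2
          have h3 : j - i + 1 = l * (v - u) := by
            have : (l : ℤ) * (v - u) = l * v - l * u := by ring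
            rw [this]
            omega
          have h4 : v - u = 1 := by
            have h5 : 0 < v - u := by
              by_contra hne
              have : (l : ℤ) * (v - u) ≤ l * 0 := by
                apply mul_le_mul_of_nonneg_left _ (by omega)
                omega
              omega
            by_contra hne
            have : (l : ℤ) * 2 ≤ l * (v - u) := by
              apply mul_le_mul_of_nonneg_left _ (by omega)
              omega
            omega
          rw [h4] at h3
          omega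
    obtain ⟨Y₁, Y₂, hU, hD, hB1, hB2, _, _, hl1, hl2⟩ :=
      pChordZ V F T hT Sᶜ l c hE i j hij hjl k a hw' hinj hint hinn
    have hl1' : T.len Y₁ < l := by omega
    have hl2' : T.len Y₂ < l := by omega
    have e1 := m3 Sᶜ Y₁ Y₂ hU.symm.subset
    have e2 := m5 S
    have hcase : L.card ≤ 5 * T.m L Y₁ ∨ L.card ≤ 5 * T.m L Y₂ := by omega
    have sub1 : Y₁ ⊆ Sᶜ := hU ▸ Finset.subset_union_left
    have sub2 : Y₂ ⊆ Sᶜ := hU ▸ Finset.subset_union_right
    have csub : ∀ Y : Finset F, Y ⊆ Sᶜ → S ⊆ Yᶜ := by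
      intro Y hY f hf
      rw [mem_compl]
      intro hfY
      exact (mem_compl.1 (hY hfY)) hf
    rcases hcase with h | h
    · have := hmin Y₁ ⟨hB1, by omega, h, by
        have := m1 S Y₁ᶜ (csub _ sub1)
        omega⟩
      omega
    · have := hmin Y₂ ⟨hB2, by omega, h, by
        have := m1 S Y₂ᶜ (csub _ sub2)
        omega⟩
      omega
  refine in_of_bound T hT Sᶜ l c hE ?_
  intro i j k a hij hjl hw hedge
  exact Pool.Agent.Helper93.FF.decompZ (clGraph T Sᶜ) l c (by omega) hE.per key k i j a hij hjl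
    ⟨hw.1, hw.2.1, fun t ht => ⟨hw.2.2 t ht, hedge t ht⟩⟩

theorem pf_StmtBalanced (hMass : StmtMass) : StmtBalanced := by
  intro V F _ _ T hT L b hb hL hex
  obtain ⟨S₀, hB0, hl0, h40, h40'⟩ := hex
  have hne : (univ.filter fun S : Finset F => PP T L b S).Nonempty :=
    ⟨S₀, by simp only [mem_filter, mem_univ, true_and]; exact ⟨hB0, hl0, by omega, by omega⟩⟩
  obtain ⟨S, hS, hmin⟩ := Finset.exists_min_image _ (fun S => T.len S) hne
  have hP : PP T L b S := by simpa using hS
  have hmin' : ∀ Y, PP T L b Y → T.len S ≤ T.len Y := fun Y hY => hmin Y (by simpa using hY)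
  obtain ⟨_, hmass⟩ := hMass V F T hT
  obtain ⟨m1, m2, m3, m4, m5, m6⟩ := hmass L
  by_cases hm : T.m L S ≤ T.m L Sᶜ
  · exact ⟨S, hP.1, hP.2.1, hP.2.2.1, hP.2.2.2, in_of_min hMass T hT L b hL S hP hmin' hm⟩
  · have hlc : T.len Sᶜ = T.len S := (m6 S S).2.2.2
    have hPc : PP T L b Sᶜ := by
      refine ⟨⟨hP.1.2, ?_⟩, ?_, hP.2.2.2, ?_⟩
      · rw [compl_compl]
        exact hP.1.1
      · rw [hlc]
        exact hP.2.1
      · rw [compl_compl]
        exact hP.2.2.1
    refine ⟨Sᶜ, hPc.1, hPc.2.1, hPc.2.2.1, hPc.2.2.2, ?_⟩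
    exact in_of_min hMass T hT L b hL Sᶜ hPc (fun Y hY => by rw [hlc]; exact hmin' Y hY)
      (by rw [compl_compl]; omega)

end Pool.Agent.Helper22.FF
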