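import Pool.Agent.Helper34.FF.G1
import Pool.Agent.Helper34.FF.Goals3

/-!
MP_7cb822_co, packet C1: the regime exists.
-/

namespace Pool.Agent.Helper22.FF

open Finset
open scoped symmDiff Classical
open Pool.Agent.Helper34.FF

theorem pf_StmtRegime (hSep : StmtSeparator) (hBal : StmtBalanced) (hFill : StmtFilling)
    (hIsoCut : StmtIsoCut) (hMass : StmtMass) : StmtRegime := by
  intro V F _ _ T hT L e o r he hbad hr hL
  obtain ⟨_, hmass⟩ := hMass V F T hT
  obtain ⟨m1, m2, m3, m4, m5, m6⟩ := hmass L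
  have h0 := hSep V F T hT L o r hr (by omega)
  obtain ⟨S, hBS, hlS, h5, h5', hIN⟩ := hBal V F T hT L (2 * r + 1) (by omega) (by omega) h0
  have hne : (univ.filter fun X : Finset F => T.Bond X ∧ X ⊆ S ∧ T.m L S ≤ 2 * T.m L X).Nonempty :=
    ⟨S, by
      simp only [mem_filter, mem_univ, true_and]
      exact ⟨hBS, Finset.Subset.refl _, by omega⟩⟩
  obtain ⟨T₁, hT₁, hmin⟩ := Finset.exists_min_image _ (fun X => T.len X) hne
  simp only [mem_filter, mem_univ, true_and] at hT₁ hmin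
  obtain ⟨hB1, hsub, hm1⟩ := hT₁
  have hl1 : T.len T₁ ≤ T.len S := hmin S ⟨hBS, Finset.Subset.refl _, by omega⟩
  have hK : ∀ X, T.Bond X → X ⊆ S → e ≤ T.m L X → T.len T₁ ≤ T.len X := by
    intro X hX hXS heX
    by_contra hlt
    push Not at hlt
    obtain ⟨E, hE, hXE, hES, hlE, hmE⟩ :=
      hFill V F T hT L e S X hbad hBS hIN hX hXS (heX.trans (m2 X))
    have h := hmin E ⟨hE, hES, by omega⟩
    omega
  refine ⟨T₁, T.len T₁, ⟨he, hbad, hB1, rfl, ?_, ?_, ?_⟩, by omega, by omega⟩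
  · have h := m1 Sᶜ T₁ᶜ (Finset.compl_subset_compl.2 hsub)
    omega
  · intro X hX hXT heX
    exact hK X hX (hXT.trans hsub) heX
  · intro X hX hXT hlX hmX
    exact hIsoCut V F T hT L e S X (T.len T₁) hBS hIN hX (hXT.trans hsub) hlX hK he hmX

end Pool.Agent.Helper22.FF
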